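import Pool.Agent.Helper95.PM.Stmts
import Pool.Agent.Helper17.PW.MAIN

/-! # Row MAINM of `Pool/Agent/Helper95/PM/Stmts.lean` -/

set_option autoImplicit false

namespace Pool.Agent.Helper95.PW

open MeasureTheory Filter

open S17 in
theorem st_MAINM (hMOM : ST_MOMM) (hTLO : ST_TLOM) : ST_MAINM := by
  obtain ⟨C, p, hC, hM⟩ := hMOM
  obtain ⟨c, n0, hc, hn01, hT⟩ := hTLO
  refine ⟨C / c + (n0 : ℝ) ^ 2, p + 5, by positivity, ?_⟩
  intro n M X Z E φ G hn hM1 hN hG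
  have hk := kinG_nonneg G
  have hn1 : (1 : ℝ) ≤ n := by exact_mod_cast hn
  have hn' : (0 : ℝ) < n := by linarith
  have hM' : (1 : ℝ) ≤ M := by exact_mod_cast hM1
  have hMp : (0 : ℝ) < M := by linarith
  obtain ⟨e, he⟩ : ∃ e : ℝ, e = (n : ℝ) ^ (-(1 / 15) : ℝ) := ⟨_, rfl⟩
  have e0 : 0 < e := by rw [he]; positivity
  obtain ⟨d, hd⟩ : ∃ d : ℝ, d = (n : ℝ) ^ (1 / 15 : ℝ) := ⟨_, rfl⟩
  have d0 : 0 < d := by rw [hd]; positivity
  have hed : e * d = 1 := by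
    rw [he, hd, ← Real.rpow_add hn']
    norm_num
  have hMpw : (1 : ℝ) ≤ (M : ℝ) ^ p := one_le_pow₀ hM'
  rw [← he]
  by_cases h : n0 * M ≤ n
  · obtain ⟨hE, hK⟩ := hT n M X Z E φ G hn hM1 hN h hG
    have h2 := hM n M X Z E φ G hn hM1 hN hG hE
    rw [Real.div_rpow hn'.le hMp.le] at hK
    obtain ⟨a, ha⟩ : ∃ a : ℝ, a = (n : ℝ) ^ (34 / 15 : ℝ) := ⟨_, rfl⟩
    obtain ⟨b, hb⟩ : ∃ b : ℝ, b = (n : ℝ) ^ (7 / 3 : ℝ) := ⟨_, rfl⟩
    obtain ⟨m, hm⟩ : ∃ m : ℝ, m = (M : ℝ) ^ (14 / 3 : ℝ) := ⟨_, rfl⟩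
    have b0 : 0 < b := by rw [hb]; positivity
    have a0 : 0 < a := by rw [ha]; positivity
    have m0 : 0 < m := by rw [hm]; positivity
    have d2 : (n : ℝ) ^ (14 / 3 : ℝ) = a * b * d := by
      rw [ha, hb, hd, ← Real.rpow_add hn', ← Real.rpow_add hn']
      norm_num
    have m5 : m ≤ (M : ℝ) ^ 5 := by
      rw [hm, ← Real.rpow_natCast]
      exact Real.rpow_le_rpow_of_exponent_le hM' (by norm_num)
    rw [d2, ← hb, ← hm] at hK
    rw [← ha] at h2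
    have h3 : c * (a * b * d) ≤ b * kinG G * m := by
      have h4 : c * (a * b * d / m) * m ≤ b * kinG G * m := mul_le_mul_of_nonneg_right hK m0.le
      have h5 : c * (a * b * d / m) * m = c * (a * b * d) := by
        field_simp
      rwa [h5] at h4
    have h4 : c * (a * d) ≤ kinG G * m := by
      have h5 : b * (c * (a * d)) ≤ b * (kinG G * m) := by nlinarith
      exact le_of_mul_le_mul_left h5 b0
    have h5 : c * a ≤ (M : ℝ) ^ 5 * e * kinG G := by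
      have h6 : c * a = c * (a * d) * e := by
        calc c * a = c * a * (e * d) := by rw [hed, mul_one]
          _ = c * (a * d) * e := by ring
      rw [h6]
      calc c * (a * d) * e ≤ kinG G * m * e := mul_le_mul_of_nonneg_right h4 e0.le
        _ ≤ kinG G * (M : ℝ) ^ 5 * e :=
            mul_le_mul_of_nonneg_right (mul_le_mul_of_nonneg_left m5 hk) e0.le
        _ = (M : ℝ) ^ 5 * e * kinG G := by ring
    have h6 : C * (M : ℝ) ^ p * a ≤ C / c * (M : ℝ) ^ (p + 5) * e * kinG G := by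
      have h7 : C / c * (M : ℝ) ^ p * (c * a) ≤ C / c * (M : ℝ) ^ p * ((M : ℝ) ^ 5 * e * kinG G) :=
        mul_le_mul_of_nonneg_left h5 (by positivity)
      have h8 : C / c * (M : ℝ) ^ p * (c * a) = C * (M : ℝ) ^ p * a := by
        field_simp
      rw [h8] at h7
      refine h7.trans (le_of_eq ?_)
      rw [pow_add]
      ring
    have h9 : 0 ≤ (n0 : ℝ) ^ 2 * (M : ℝ) ^ (p + 5) * e * kinG G := by positivity
    have h10 : (C / c + (n0 : ℝ) ^ 2) * (M : ℝ) ^ (p + 5) * e * kinG G =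
        C / c * (M : ℝ) ^ (p + 5) * e * kinG G + (n0 : ℝ) ^ 2 * (M : ℝ) ^ (p + 5) * e * kinG G := by
      ring
    rw [h10]
    linarith
  · have hle : (n : ℝ) ≤ n0 * M := by exact_mod_cast (not_le.1 h).le
    have h2 := mom_le G hG.lpG
    have h3 : (n : ℝ) ≤ (n0 : ℝ) ^ 2 * (M : ℝ) ^ (p + 5) * e := by
      have h4 : (n : ℝ) * d ≤ n * n := by
        refine mul_le_mul_of_nonneg_left ?_ hn'.le
        rw [hd]
        calc (n : ℝ) ^ (1 / 15 : ℝ) ≤ (n : ℝ) ^ (1 : ℝ) :=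
              Real.rpow_le_rpow_of_exponent_le hn1 (by norm_num)
          _ = n := Real.rpow_one _
      have h5 : (n : ℝ) * n ≤ (n0 * M) * (n0 * M) := mul_self_le_mul_self hn'.le hle
      have h6 : (M : ℝ) ^ 2 ≤ (M : ℝ) ^ (p + 5) := pow_le_pow_right₀ hM' (by omega)
      have h7 : (n : ℝ) * d ≤ (n0 : ℝ) ^ 2 * (M : ℝ) ^ (p + 5) := by
        have h8 : (n0 : ℝ) ^ 2 * (M : ℝ) ^ 2 ≤ (n0 : ℝ) ^ 2 * (M : ℝ) ^ (p + 5) :=
          mul_le_mul_of_nonneg_left h6 (by positivity)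
        nlinarith
      calc (n : ℝ) = n * d * e := by
            rw [mul_assoc, mul_comm d e, hed, mul_one]
        _ ≤ (n0 : ℝ) ^ 2 * (M : ℝ) ^ (p + 5) * e := mul_le_mul_of_nonneg_right h7 e0.le
    have h9 : 0 ≤ C / c * (M : ℝ) ^ (p + 5) * e * kinG G := by positivity
    have h10 : (C / c + (n0 : ℝ) ^ 2) * (M : ℝ) ^ (p + 5) * e * kinG G =
        C / c * (M : ℝ) ^ (p + 5) * e * kinG G + (n0 : ℝ) ^ 2 * (M : ℝ) ^ (p + 5) * e * kinG G := by
      ring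
    rw [h10]
    have h11 := mul_le_mul_of_nonneg_right h3 hk
    linarith

end Pool.Agent.Helper95.PW
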